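import Pool.Agent.W443.J6.Stms

/-!
# The first step: the direction `(1, 0)`
-/

set_option autoImplicit false

open MvPolynomial Pool.Agent.H938R2.JC Pool.Agent.W443.J5 Pool.Agent.W443.J6

namespace Pool.Agent.W305.J6

universe u

section

variable {k : Type u} [Field k]

/-- a polynomial as a polynomial in `x` with coefficients in `k[y]` -/
noncomputable def Ps : MvPolynomial (Fin 2) k →ₐ[k] Polynomial (Polynomial k) :=
  aeval ![Polynomial.X, Polynomial.C Polynomial.X]

/-- the coefficient of `x ^ i` -/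
noncomputable def row (i : ℕ) (f : MvPolynomial (Fin 2) k) : Polynomial k := (Ps f).coeff i

theorem row_monomial (i : ℕ) (u : Fin 2 →₀ ℕ) (c : k) :
    row i (monomial u c) = if i = u 0 then Polynomial.C c * Polynomial.X ^ (u 1) else 0 := by
  unfold row Ps
  rw [aeval_monomial, Finsupp.prod_fintype _ _ (by simp), Fin.prod_univ_two]
  simp only [Matrix.cons_val_zero, Matrix.cons_val_one]
  have h1 : (algebraMap k (Polynomial (Polynomial k))) c = Polynomial.C (Polynomial.C c) := rfl
  rw [h1, ← Polynomial.C_pow, mul_comm (Polynomial.X ^ (u 0)), ← mul_assoc, ← Polynomial.C_mul,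
    Polynomial.coeff_C_mul, Polynomial.coeff_X_pow]
  split_ifs <;> simp

theorem row_add (i : ℕ) (f g : MvPolynomial (Fin 2) k) : row i (f + g) = row i f + row i g := by
  unfold row
  rw [map_add, Polynomial.coeff_add]

theorem coeff_row (i j : ℕ) (f : MvPolynomial (Fin 2) k) :
    (row i f).coeff j = coeff (e i j) f := by
  induction f using MvPolynomial.induction_on' with
  | monomial u a =>
    rw [row_monomial, coeff_monomial]
    by_cases h0 : i = u 0
    · rw [if_pos h0, Polynomial.coeff_C_mul, Polynomial.coeff_X_pow]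
      by_cases h1 : j = u 1
      · rw [if_pos h1, if_pos (ext_iff'.2 ⟨by simp [h0], by simp [h1]⟩), mul_one]
      · rw [if_neg h1, if_neg, mul_zero]
        intro h; apply h1; rw [h]; simp
    · rw [if_neg h0, Polynomial.coeff_zero, if_neg]
      intro h; apply h0; rw [h]; simp
  | add p q hp hq => rw [row_add, Polynomial.coeff_add, hp, hq, coeff_add]

theorem dh_row (N : ℕ) (f : MvPolynomial (Fin 2) k) : dh 1 0 (N : ℤ) f = row N f := by
  unfold dh part
  have h1 : row N f = ∑ m ∈ f.support, row N (monomial m (coeff m f)) := by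
    have h2 : row N f = row N (∑ m ∈ f.support, monomial m (coeff m f)) := by
      rw [← f.as_sum]
    rw [h2]
    unfold row
    rw [map_sum, Polynomial.finsetSum_coeff]
  rw [h1, map_sum, Finset.sum_filter]
  refine Finset.sum_congr rfl fun m _ => ?_
  rw [row_monomial]
  by_cases h : N = m 0
  · rw [if_pos (by rw [h]; ring), if_pos h, aeval_monomial, Finsupp.prod_fintype _ _ (by simp),
      Fin.prod_univ_two]
    simp only [Matrix.cons_val_zero, Matrix.cons_val_one, one_pow, one_mul]
    rfl
  · rw [if_neg, if_neg h]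
    intro h2
    apply h
    have : ((m 0 : ℕ) : ℤ) = N := by linarith
    exact_mod_cast this.symm

theorem top_iff (N : ℕ) (f : MvPolynomial (Fin 2) k) :
    Top 1 0 (N : ℤ) f ↔ (∀ i, N < i → row i f = 0) ∧ row N f ≠ 0 := by
  constructor
  · rintro ⟨h1, m, hm, hm2⟩
    constructor
    · intro i hi
      ext j
      rw [coeff_row, Polynomial.coeff_zero]
      by_contra hc
      have := h1 _ hc
      rw [e_zero, e_one] at this
      omega
    · intro h0
      apply hm
      have h2 : m 0 = N := by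
        have : ((m 0 : ℕ) : ℤ) = N := by linarith
        exact_mod_cast this
      rw [eq_e m, h2, ← coeff_row, h0, Polynomial.coeff_zero]
  · rintro ⟨h1, h2⟩
    constructor
    · intro m hm
      by_contra hc
      push Not at hc
      have h3 : N < m 0 := by
        have : (N : ℤ) < (m 0 : ℕ) := by linarith
        exact_mod_cast this
      apply hm
      rw [eq_e m, ← coeff_row, h1 _ h3, Polynomial.coeff_zero]
    · obtain ⟨j, hj⟩ : ∃ j, (row N f).coeff j ≠ 0 := by
        by_contra hc
        push Not at hc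
        exact h2 (Polynomial.ext fun j => by rw [hc j, Polynomial.coeff_zero])
      refine ⟨e N j, ?_, ?_⟩
      · rwa [← coeff_row]
      · rw [e_zero, e_one]
        ring

/-- the shift in `y` -/
noncomputable def sh (y : k) : MvPolynomial (Fin 2) k →ₐ[k] MvPolynomial (Fin 2) k :=
  aeval ![X 0, X 1 + C y]

theorem sh_sh (y : k) : (sh y).comp (sh (-y)) = AlgHom.id k (MvPolynomial (Fin 2) k) := by
  apply MvPolynomial.algHom_ext
  intro i
  fin_cases i
  · simp [sh]
  · simp [sh]

/-- the shift as an automorphism -/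
noncomputable def she (y : k) : MvPolynomial (Fin 2) k ≃ₐ[k] MvPolynomial (Fin 2) k :=
  AlgEquiv.ofAlgHom (sh y) (sh (-y)) (sh_sh y) (by
    have h := sh_sh (-y)
    rwa [neg_neg] at h)

theorem bad_sh (y : k) {f g : MvPolynomial (Fin 2) k} (h : Bad f g) :
    Bad (sh y f) (sh y g) := by
  obtain ⟨⟨c, hc, hJ⟩, hG⟩ := h
  refine ⟨⟨c, hc, ?_⟩, ?_⟩
  · unfold sh
    rw [J_aeval, hJ]
    have h1 : J (![X 0, X 1 + C y] 0 : MvPolynomial (Fin 2) k) (![X 0, X 1 + C y] 1) = 1 := by
      simp only [Matrix.cons_val_zero, Matrix.cons_val_one]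
      unfold J
      simp only [map_add, pderiv_C, add_zero]
      rw [pderiv_X_self, pderiv_X_self, pderiv_X_of_ne (by decide), pderiv_X_of_ne (by decide)]
      ring
    rw [h1, mul_one]
    simp
  · intro hG'
    exact hG (Good.of_equiv (she y) hG')

theorem row_sh (y : k) (i : ℕ) (f : MvPolynomial (Fin 2) k) :
    row i (sh y f) = (row i f).comp (Polynomial.X + Polynomial.C y) := by
  have h : (Ps (k := k)).comp (sh y) =
      (Polynomial.mapAlgHom (Polynomial.aeval (Polynomial.X + Polynomial.C y) :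
        Polynomial k →ₐ[k] Polynomial k)).comp Ps := by
    apply MvPolynomial.algHom_ext
    intro i
    fin_cases i
    · simp [sh, Ps]
    · simp [sh, Ps]
  have h2 := congrArg (fun φ : MvPolynomial (Fin 2) k →ₐ[k] Polynomial (Polynomial k) =>
    (φ f).coeff i) h
  simp only [AlgHom.comp_apply] at h2
  unfold row
  rw [h2, Polynomial.coe_mapAlgHom, Polynomial.coeff_map]
  rfl

theorem top_sh (y : k) (N : ℕ) {f : MvPolynomial (Fin 2) k} (h : Top 1 0 (N : ℤ) f) :
    Top 1 0 (N : ℤ) (sh y f) := by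
  rw [top_iff] at h ⊢
  refine ⟨fun i hi => ?_, ?_⟩
  · rw [row_sh, h.1 i hi, Polynomial.zero_comp]
  · rw [row_sh]
    intro h0
    apply h.2
    have h1 := congrArg (fun P : Polynomial k => P.comp (Polynomial.X - Polynomial.C y)) h0
    simp only [Polynomial.comp_assoc, Polynomial.zero_comp] at h1
    rw [Polynomial.add_comp, Polynomial.X_comp, Polynomial.C_comp, sub_add_cancel,
      Polynomial.comp_X] at h1
    exact h1

theorem low_of (N V : ℕ) {f : MvPolynomial (Fin 2) k} (ht : Top 1 0 (N : ℤ) f)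
    (h0 : (row N f).coeff V ≠ 0) (h1 : ∀ j, (row N f).coeff j ≠ 0 → V ≤ j) : Low 1 0 N V f := by
  refine ⟨by rwa [← coeff_row], fun m hm => ?_⟩
  have h2 := ht.1 m hm
  rcases lt_or_eq_of_le h2 with h3 | h3
  · left
    linarith
  · right
    refine ⟨by linarith, ?_⟩
    apply h1
    have h4 : m 0 = N := by
      have : ((m 0 : ℕ) : ℤ) = N := by linarith
      exact_mod_cast this
    rw [coeff_row, ← h4, ← eq_e]
    exact hm

theorem upp_of (N V : ℕ) {f : MvPolynomial (Fin 2) k} (ht : Top 1 0 (N : ℤ) f)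
    (h0 : (row N f).coeff V ≠ 0) (h1 : ∀ j, (row N f).coeff j ≠ 0 → j ≤ V) : Upp 1 0 N V f := by
  refine ⟨by rwa [← coeff_row], fun m hm => ?_⟩
  have h2 := ht.1 m hm
  rcases lt_or_eq_of_le h2 with h3 | h3
  · left
    linarith
  · right
    refine ⟨by linarith, ?_⟩
    apply h1
    have h4 : m 0 = N := by
      have : ((m 0 : ℕ) : ℤ) = N := by linarith
      exact_mod_cast this
    rw [coeff_row, ← h4, ← eq_e]
    exact hm

/-- after the shift to a root -/
theorem shift_low (y : k) (N V : ℕ) (q : Polynomial k) {f : MvPolynomial (Fin 2) k}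
    (ht : Top 1 0 (N : ℤ) f) (hU : row N f = (Polynomial.X - Polynomial.C y) ^ V * q)
    (hq : q.eval y ≠ 0) : Low 1 0 N V (sh y f) := by
  have h1 : row N (sh y f) = q.comp (Polynomial.X + Polynomial.C y) * Polynomial.X ^ V := by
    rw [row_sh, hU, Polynomial.mul_comp, Polynomial.pow_comp, Polynomial.sub_comp,
      Polynomial.X_comp, Polynomial.C_comp, add_sub_cancel_right, mul_comm]
  apply low_of N V (top_sh y N ht)
  · rw [h1]
    have h2 := Polynomial.coeff_mul_X_pow (q.comp (Polynomial.X + Polynomial.C y)) V 0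
    rw [zero_add] at h2
    rw [h2, Polynomial.coeff_zero_eq_eval_zero, Polynomial.eval_comp]
    simpa using hq
  · intro j hj
    by_contra hc
    push Not at hc
    apply hj
    rw [h1, Polynomial.coeff_mul_X_pow', if_neg (by omega)]

end

theorem st1 : S_SIM.{u} → S_DH.{u} → S_E1.{u} → S_ST1.{u} := by
  intro hSIM hDH hE1 k _ _ _ f g a b m ha hb hab hm hbad hs1 hs2 htop
  have hN : ((a * m : ℕ) : ℤ) = (a : ℤ) * m := by push_cast; ring
  have htN : Top 1 0 ((a * m : ℕ) : ℤ) f := by rw [hN]; exact htop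
  have ham : 1 ≤ a * m := Nat.mul_pos (by omega) (by omega)
  have htg : Top 1 0 ((b * m : ℕ) : ℤ) g := by
    obtain ⟨n, hn, h1, h2⟩ := hs1.1 1 0 (a * m) (Or.inl one_pos) htop
    have ha0 : (a : ℤ) ≠ 0 := by positivity
    have h3 : n = m := (mul_left_cancel₀ ha0 h1).symm
    rw [h3] at h2
    push_cast
    exact h2
  have hU0 : row (a * m) f ≠ 0 := ((top_iff _ _).1 htN).2
  -- the shifted pair
  have hshift : ∀ y : k, Bad (sh y f) (sh y g) ∧ Sim a b (sh y f) (sh y g) ∧
      Sim b a (sh y g) (sh y f) := by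
    intro y
    have hb' := bad_sh y hbad
    refine ⟨hb', ?_⟩
    have t1 := top_sh y (a * m) htN
    have t2 := top_sh y (b * m) htg
    push_cast at t1 t2
    exact hSIM k (sh y f) (sh y g) hb' a b (by omega) (by omega) hab 1 0 m (Or.inl one_pos) t1 t2
  obtain ⟨⟨c, hc, hJ⟩, hG⟩ := hbad
  have hbad : Bad f g := ⟨⟨c, hc, hJ⟩, hG⟩
  have key : (row (a * m) f).natDegree = 0 ∨ (∃ y, a * m < (row (a * m) f).rootMultiplicity y) ∨
      ∃ (y κ : k) (V : ℕ), κ ≠ 0 ∧ 1 ≤ V ∧ V < a * m ∧
        row (a * m) f = Polynomial.C κ * (Polynomial.X - Polynomial.C y) ^ V := by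
    by_cases h0 : (row (a * m) f).natDegree = 0
    · exact Or.inl h0
    · obtain ⟨φ, hφ⟩ := hDH k f g c hc hJ 1 0 ((a * m : ℕ) : ℤ) one_pos (by norm_num)
        (by exact_mod_cast ham) htN (by rw [dh_row]; omega)
      rw [dh_row, add_zero] at hφ
      exact hE1 k (row (a * m) f) φ (a * m) ham hU0 hφ
  rcases key with h0 | ⟨y, hy⟩ | ⟨y, κ, V, hκ, hV1, hV2, hU⟩
  · right
    obtain ⟨u, hu⟩ := Polynomial.natDegree_eq_zero.1 h0
    have hu0 : u ≠ 0 := by
      rintro rfl
      apply hU0
      rw [← hu, Polynomial.C_0]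
    refine ⟨f, g, 0, by omega, hbad, hs1, hs2, ?_, ?_⟩
    · rw [mul_zero]
      apply low_of _ _ htN
      · rw [← hu, Polynomial.coeff_C_zero]; exact hu0
      · intro j _; omega
    · rw [mul_zero]
      apply upp_of _ _ htN
      · rw [← hu, Polynomial.coeff_C_zero]; exact hu0
      · intro j hj
        rw [← hu, Polynomial.coeff_C] at hj
        split_ifs at hj with h
        · omega
        · exact absurd rfl hj
  · left
    obtain ⟨q, hq1, hq2⟩ := Polynomial.exists_eq_pow_rootMultiplicity_mul_and_not_dvd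
      (row (a * m) f) hU0 y
    have hq : q.eval y ≠ 0 := by
      intro h
      exact hq2 (Polynomial.dvd_iff_isRoot.2 h)
    have hlow := shift_low y (a * m) _ q htN hq1 hq
    obtain ⟨hb1, hs1', hs2'⟩ := hshift y
    obtain ⟨p', q', hp, hq', -⟩ := hs1'.2.1 1 0 one_pos _ _ hlow
    rw [hq'] at hlow hy
    exact ⟨sh y f, sh y g, q', Nat.lt_of_mul_lt_mul_left hy, hb1, hs1', hs2', hlow⟩
  · right
    have hU' : row (a * m) f = (Polynomial.X - Polynomial.C y) ^ V * Polynomial.C κ := by
      rw [hU, mul_comm]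
    have hlow := shift_low y (a * m) V (Polynomial.C κ) htN hU' (by simpa using hκ)
    have hrow : row (a * m) (sh y f) = Polynomial.C κ * Polynomial.X ^ V := by
      rw [row_sh, hU, Polynomial.mul_comp, Polynomial.pow_comp, Polynomial.sub_comp,
        Polynomial.X_comp, Polynomial.C_comp, Polynomial.C_comp, add_sub_cancel_right]
    obtain ⟨hb1, hs1', hs2'⟩ := hshift y
    obtain ⟨p', q', hp, hq', -⟩ := hs1'.2.1 1 0 one_pos _ _ hlow
    have hupp : Upp 1 0 (a * m) V (sh y f) := by
      apply upp_of _ _ (top_sh y _ htN)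
      · rw [hrow, Polynomial.coeff_C_mul, Polynomial.coeff_X_pow, if_pos rfl, mul_one]
        exact hκ
      · intro j hj
        rw [hrow, Polynomial.coeff_C_mul, Polynomial.coeff_X_pow] at hj
        split_ifs at hj with h
        · omega
        · exact absurd (mul_zero _) hj
    rw [hq'] at hlow hupp hV2
    exact ⟨sh y f, sh y g, q', Nat.lt_of_mul_lt_mul_left hV2, hb1, hs1', hs2', hlow, hupp⟩

end Pool.Agent.W305.J6
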